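import Mathlib
import Pool.Agent.Lib.MP_0baeaf_nt.HFive

/-!
The lower half of the conjecture on extremal total stopping times of the `5x+1` map: for every
`ε > 0` infinitely many `x` reach `1` for the first time after more than `(γ - ε) log x` steps, where
`γ = 1 / (log 2 - a log 5)` and `H(a) = a log 5`.

Backward iteration from `16` along parity words with a fixed density of odd steps just below `a`.
The words are concatenations of blocks; the admissibility of a word is a congruence modulo a power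
of `5`.  The library shows that the residues produced by such words fill all residue classes
(an inverse theorem for the entropy of convolutions on the `5`-adic integers gives full entropy, a
coupling with rare repair blocks and a negative moment dichotomy turn this into positivity).
-/

namespace Pool.Agent.Results.MP_0baeaf_nt.LowerHalf

open Pool.Agent.Lib.MP_0baeaf_nt.H

def T (n : ℕ) : ℕ := if n % 2 = 0 then n / 2 else (5 * n + 1) / 2

def Out (n : ℕ) : Prop := n ≠ 1 ∧ n ≠ 2 ∧ n ≠ 3 ∧ n ≠ 4 ∧ n ≠ 8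

def Hit (n k : ℕ) : Prop := T^[k] n = 1 ∧ ∀ j < k, T^[j] n ≠ 1

theorem pre {m n k : ℕ} (hT : T m = n) (ho : Out n) (hh : Hit n k) : Out m ∧ Hit m (k + 1) := by
  have hm : Out m := by
    unfold Out at ho ⊢
    refine ⟨?_, ?_, ?_, ?_, ?_⟩ <;> rintro rfl <;> simp [T] at hT <;> omega
  refine ⟨hm, ?_, ?_⟩
  · rw [Function.iterate_succ_apply, hT]
    exact hh.1
  · intro j hj
    cases j with
    | zero => exact hm.1
    | succ j =>
      rw [Function.iterate_succ_apply, hT]
      exact hh.2 j (by omega)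

theorem half {o : ℕ} {x y : ℤ} (h : 5 ^ o * x = 2 * y) : ∃ z, x = 2 * z ∧ 5 ^ o * z = y := by
  have h1 : (2 : ℤ) ∣ x := (IsCoprime.pow_right (x := 2) (y := 5)
    (by norm_num [Int.isCoprime_iff_gcd_eq_one])).dvd_of_dvd_mul_left ⟨y, h⟩
  obtain ⟨z, rfl⟩ := h1
  exact ⟨z, rfl, by linarith⟩

theorem back (u : List Bool) : ∀ M : ℤ, 5 ^ ones u * M = 2 ^ u.length * 16 - U u →
    ∃ m : ℕ, (m : ℤ) = M ∧ 0 < m ∧ Out m ∧ Hit m (4 + u.length) := by
  induction u with
  | nil =>
    intro M h
    refine ⟨16, by simpa [ones, U] using h.symm, by norm_num, by simp [Out], by decide, ?_⟩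
    intro j hj
    simp only [List.length_nil] at hj
    interval_cases j <;> decide
  | cons b u ih =>
    intro M h
    cases b
    · simp only [ones, U, List.length_cons] at h
      obtain ⟨z, h1, h2⟩ := half (o := ones u) (x := M) (y := 2 ^ u.length * 16 - U u) (by linear_combination h)
      obtain ⟨m, a1, a2, a3, a4⟩ := ih z h2
      have hT : T (2 * m) = m := by unfold T; rw [if_pos (by omega)]; omega
      exact ⟨2 * m, by push_cast; omega, by omega, pre hT a3 a4⟩
    · simp only [ones, U, List.length_cons] at h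
      obtain ⟨z, h1, h2⟩ := half (o := ones u) (x := 5 * M + 1) (y := 2 ^ u.length * 16 - U u)
        (by linear_combination h)
      obtain ⟨m, a1, a2, a3, a4⟩ := ih z h2
      have hT : T M.toNat = m := by unfold T; rw [if_neg (by omega)]; omega
      exact ⟨M.toNat, by omega, by omega, pre hT a3 a4⟩

theorem gap {a x : ℝ} (ha1 : a < 1) (h : Real.binEntropy a = a * Real.log 5) (hx0 : 0 < x)
    (hxa : x < a) : x * Real.log 5 < Real.binEntropy x := by
  have ha0 : 0 < a := hx0.trans hxa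
  have h0 := Real.strictConcave_binEntropy.2
  have h1 := @h0 0 ⟨le_rfl, zero_le_one⟩ a ⟨ha0.le, ha1.le⟩ ha0.ne (1 - x / a) (x / a)
    (by rw [sub_pos, div_lt_one ha0]; exact hxa) (by positivity) (by ring)
  simp only [smul_eq_mul, mul_zero, zero_add, Real.binEntropy_zero, h] at h1
  rwa [← mul_assoc, div_mul_cancel₀ _ ha0.ne'] at h1

theorem dense {a η : ℝ} (ha1 : a < 1) (h : Real.binEntropy a = a * Real.log 5) (hη : 0 < η)
    (hηa : η ≤ a) (K : ℕ) : ∃ m l : ℕ, 0 < m ∧ Hit m (4 + l) ∧ K ≤ l ∧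
      Real.log m ≤ (l + 4) * Real.log 2 - (a - η) * l * Real.log 5 := by
  obtain ⟨b₀, hb₀⟩ := exists_nat_ge (15 / η)
  obtain ⟨b, hb, j, hj, hc⟩ := exists_block (x := a - η / 3) (ε := η / 3) (by linarith) (by linarith)
    (gap ha1 h (by linarith) (by linarith)) (by positivity) b₀
  obtain ⟨n, hn, u, M, h1, h2, h3, h4⟩ := exists_word hc K
  obtain ⟨m, a1, a2, -, a4⟩ := back u M h4
  refine ⟨m, u.length, a2, a4, by omega, ?_⟩
  have h5 : (5 : ℤ) ^ ones u * m ≤ 2 ^ (u.length + 4) := by
    rw [a1, h4, pow_add]; linarith [(U_bounds u).1]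
  have h6 : (5 : ℝ) ^ ones u * m ≤ 2 ^ (u.length + 4) := by exact_mod_cast h5
  have hm : (0 : ℝ) < m := by exact_mod_cast a2
  have h7 := Real.log_le_log (by positivity) h6
  rw [Real.log_mul (by positivity) hm.ne', Real.log_pow, Real.log_pow] at h7
  have h8 : (a - η) * u.length ≤ ones u := by
    have e1 : (u.length : ℝ) ≤ (b + 5) * n := by exact_mod_cast h3
    have e2 : (15 : ℝ) ≤ b * η := by
      rw [div_le_iff₀ hη] at hb₀
      exact hb₀.trans (mul_le_mul_of_nonneg_right (by exact_mod_cast hb) hη.le)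
    have e3 : (a - η) * (b + 5) ≤ j + 1 := by nlinarith
    rw [h1]
    push_cast
    calc (a - η) * u.length ≤ (a - η) * ((b + 5) * n) := mul_le_mul_of_nonneg_left e1 (by linarith)
      _ = (a - η) * (b + 5) * n := by ring
      _ ≤ (j + 1) * n := mul_le_mul_of_nonneg_right e3 (Nat.cast_nonneg _)
  have h9 := mul_le_mul_of_nonneg_right h8 (Real.log_nonneg (by norm_num : (1 : ℝ) ≤ 5))
  push_cast at h7
  linarith

theorem big {a γ ε : ℝ} (ha0 : 0 < a) (ha1 : a < 1) (h : Real.binEntropy a = a * Real.log 5)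
    (hγ : γ = 1 / (Real.log 2 - a * Real.log 5)) (hε : 0 < ε) (K : ℕ) :
    ∃ m k : ℕ, 0 < m ∧ Hit m k ∧ K ≤ k ∧ (γ - ε) * Real.log m < k := by
  by_cases hs : γ - ε ≤ 0
  · obtain ⟨m, l, h1, h2, h3, -⟩ := dense ha1 h ha0 le_rfl K
    refine ⟨m, 4 + l, h1, h2, by omega, lt_of_le_of_lt
      (mul_nonpos_of_nonpos_of_nonneg hs (Real.log_natCast_nonneg m)) (by positivity)⟩
  push Not at hs
  set D := Real.log 2 - a * Real.log 5 with hD
  have hD0 : 0 < D := one_div_pos.1 (by linarith)
  have h5 : 0 < Real.log 5 := Real.log_pos (by norm_num)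
  have h2 : 0 < Real.log 2 := Real.log_pos (by norm_num)
  have hγD : γ * D = 1 := by rw [hγ]; field_simp
  set η := min a (ε * D / (2 * γ * Real.log 5)) with hη
  have hγ0 : 0 < γ := by linarith
  have hη0 : 0 < η := lt_min ha0 (by positivity)
  have hη1 : η * (2 * γ * Real.log 5) ≤ ε * D := by
    rw [← le_div_iff₀ (by positivity)]; exact min_le_right _ _
  obtain ⟨K₁, hK₁⟩ := exists_nat_ge (8 * γ * Real.log 2 / (ε * D))
  obtain ⟨m, l, a1, a2, a3, a4⟩ := dense ha1 h hη0 (min_le_left _ _) (K + K₁)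
  refine ⟨m, 4 + l, a1, a2, by omega, ?_⟩
  have e1 : 8 * γ * Real.log 2 ≤ l * (ε * D) := by
    rw [div_le_iff₀ (by positivity)] at hK₁
    exact hK₁.trans (mul_le_mul_of_nonneg_right (by exact_mod_cast (by omega : K₁ ≤ l)) (by positivity))
  have hl : (0 : ℝ) ≤ l := Nat.cast_nonneg _
  have e2 : (l + 4) * Real.log 2 - (a - η) * l * Real.log 5 =
      l * D + l * (η * Real.log 5) + 4 * Real.log 2 := by rw [hD]; ring
  rw [e2] at a4
  have e3 := mul_le_mul_of_nonneg_left a4 hs.le
  have e4 : (γ - ε) * (l * (η * Real.log 5) + 4 * Real.log 2) ≤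
      γ * (l * (η * Real.log 5) + 4 * Real.log 2) :=
    mul_le_mul_of_nonneg_right (by linarith) (by positivity)
  have e5 := mul_le_mul_of_nonneg_left hη1 hl
  have e6 : (γ - ε) * (l * D) = l - l * (ε * D) := by linear_combination l * hγD
  push_cast
  nlinarith

theorem result :
    ∀ a γ : ℝ, 0 < a → a < 1 →
      -a * Real.log a - (1 - a) * Real.log (1 - a) = a * Real.log 5 →
      γ = 1 / (Real.log 2 - a * Real.log 5) →
      ∀ ε : ℝ, 0 < ε →
        {x : ℕ | 0 < x ∧ ∃ k : ℕ,
            (fun n : ℕ => if n % 2 = 0 then n / 2 else (5 * n + 1) / 2)^[k] x = 1 ∧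
            (∀ j : ℕ, j < k →
              (fun n : ℕ => if n % 2 = 0 then n / 2 else (5 * n + 1) / 2)^[j] x ≠ 1) ∧
            (γ - ε) * Real.log (x : ℝ) < (k : ℝ)}.Infinite := by
  intro a γ ha0 ha1 h hγ ε hε
  have h' : Real.binEntropy a = a * Real.log 5 := by
    rw [← h, Real.binEntropy_eq_negMulLog_add_negMulLog_one_sub, Real.negMulLog, Real.negMulLog]; ring
  apply Set.Infinite.of_image (fun n : ℕ => sInf {k : ℕ | T^[k] n = 1})
  apply Set.infinite_of_not_bddAbove
  rintro ⟨K, hK⟩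
  obtain ⟨n, k, hn, hh, hk, hl⟩ := big ha0 ha1 h' hγ hε (K + 1)
  have hσ : sInf {k : ℕ | T^[k] n = 1} = k := by
    apply le_antisymm (Nat.sInf_le (s := {k : ℕ | T^[k] n = 1}) hh.1)
    by_contra hlt
    exact hh.2 _ (not_le.mp hlt) (Nat.sInf_mem (s := {k : ℕ | T^[k] n = 1}) ⟨k, hh.1⟩)
  have : k ≤ K := hK ⟨n, ⟨hn, k, hh.1, hh.2, hl⟩, hσ⟩
  omega

end Pool.Agent.Results.MP_0baeaf_nt.LowerHalf
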